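import Pool.Agent.Run7.h677.PS.Stm

/-!
# Piece AVOID of the project PS (MP_c3eb34_co)
-/

set_option autoImplicit false

namespace Pool.Agent.Run7.h984.PS

open MeasureTheory Pool.Agent.Run7.h677.PS

theorem t_AVOID : S_AVOID := by
  intro d 𝒜 h𝒜 hne U hU hU0
  by_contra h
  push Not at h
  have h1 : U ⊆ ⋃ S ∈ 𝒜, (S : Set (E d)) := by
    intro q hq
    obtain ⟨S, hS, hqS⟩ := h q hq
    exact Set.mem_biUnion hS hqS
  have h2 : volume (⋃ S ∈ 𝒜, (S : Set (E d))) = 0 := by
    rw [measure_biUnion_null_iff h𝒜.countable]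
    intro S hS
    exact Measure.addHaar_affineSubspace volume S (hne S hS)
  exact (hU.measure_pos volume hU0).ne' (measure_mono_null h1 h2)

end Pool.Agent.Run7.h984.PS
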